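import Pool.Agent.Y143.Gal.Main

/-!
# Purity of graded pieces of the cohomology of all smooth proper varieties
-/

open Pool.Agent.H914 Pool.Agent.Y143

universe u v w

/-- Let `X` be a smooth proper variety over the local field `K` with residue field with `q` elements,
`M` the monodromy filtration of `H^m(X_{\bar K}, Q_l)`. For all integers `s`
and all `g` in the Weil group every eigenvalue of `g` on the image in `gr^M_s` of the `s`-good part
of `H^m(X_{\bar K})` is an algebraic number all of whose conjugates have absolute
value `q ^ (deg g (s + m) / 2)`. The same holds for `gr^M_s` itself if `H^m` is good for `s`, in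
particular if `|s| ≥ min (m, 2 dim X - m) - 2`, or if the diagonal of `X` factors through
cohomology groups which are good for `s`. -/
theorem Pool.Agent.Results.MP_cd312e_ag.AllVarieties.result
    {K : Type u} [Field K] {Ω : Type w} [Field Ω] [CharZero Ω] [IsAlgClosed Ω] {W : Type}
    [Group W] {H : Cohomology.{u, v, w} K Ω W} {q : ℕ} (hH : H.IsLocal q) (X : SmVar.{u} K)
    (m : ℕ) :
    (∃ M : ℤ → Submodule Ω (H.H X).V, IsMonodromyFiltrationOn ((H.H X).gr m) (H.H X).N M) ∧
    (∀ M : ℤ → Submodule Ω (H.H X).V, IsMonodromyFiltrationOn ((H.H X).gr m) (H.H X).N M →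
      ∀ (s : ℤ) (g : W) (α : Ω), IsEigenvalueOn M s (H.goodPart q s X m) ((H.H X).act g) α →
        IsWeilNumber q (H.deg g * (s + m)) α) ∧
    ∀ s : ℤ, (H.IsGood q s X m ∨ H.DiagonalFactors q s X m) →
      H.goodPart q s X m = (H.H X).gr m := by
  refine ⟨exists_monodromyFiltration hH X m, ?_, ?_⟩
  · rintro M hM s g α ⟨x, hxg, hx, hx', hα⟩
    exact good_pure hH hM g hxg hx hx' hα
  · rintro s (h | h)
    · exact goodPart_eq_of_good hH h
    · exact goodPart_eq_of_factors hH h
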