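import Pool.Agent.Y143.Prod.Weil
import Pool.Agent.Y143.Prod.SumDefs

/-!
# The weight-monodromy conjecture for fibre products of elliptic curves over curves
-/

open Pool.Agent.Y143 Pool.Agent.Y143.Par Pool.Agent.Y143.Prod

universe v

/-- Let `R = H^*(X_{\bar K})` be the cohomology of a smooth proper variety over the local field `K`,
with the action of the Weil group `W`, such that over a finite extension of `K` (with residue field
with `q ^ e` elements) the part `H^m(X_{\bar K})` is a direct summand of a sum of Tate twists of
parabolic cohomology groups `H^1(C_{\bar K}, j_* S)`, where `S` is a tensor product of sheaves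
`Sym^(k_i) R^1 f_(i*)`, for elliptic curves `f_i : E_i → U` over an open subset `j : U → C` of a smooth
projective curve `C` (with arbitrary semistable reduction). Then every eigenvalue of every `g` in `W`
on the graded piece `gr^M_s` of the monodromy filtration of `H^m(X_{\bar K})` is an algebraic number
all of whose conjugates have absolute value `q ^ (deg g (s + m) / 2)`. -/
theorem Pool.Agent.Results.MP_cd312e_ag.FibreProducts.result {W : Type} [Group W] {deg : W → ℤ}
    (hdeg : ∀ g h, deg (g * h) = deg g + deg h) {q : ℕ} (hq : q ≠ 0)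
    (R : GradedRep.{v, 0} ℂ W) (hR : R.IsRep deg q) (m e : ℕ) {ι : Type} [Finite ι]
    (P : ι → ProductCohomology.{v} (q ^ e)) (t : ι → ℤ) (hm : ∀ i, (P i).k + 1 + 2 * t i = m)
    (hS : R.IsSummand deg q e m (sumFrob P t) (sumN P)) :
    (∃ M : ℤ → Submodule ℂ R.V, IsMonodromyFiltrationOn (R.gr m) R.N M) ∧
    ∀ M : ℤ → Submodule ℂ R.V, IsMonodromyFiltrationOn (R.gr m) R.N M →
      ∀ (s : ℤ) (g : W) (α : ℂ), IsEigenvalueOn M s (R.gr m) (R.act g) α →
        IsWeilNumber q (deg g * (s + m)) α := by
  have hP : IsMWPure (q ^ e) m (sumFrob P t) (sumN P) :=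
    isMWPure_pi (pow_ne_zero e hq) (fun i => (P i).H) (fun i => (P i).frob) (fun i => (P i).N) t
      (fun i => (P i).k + 1) m hm fun i => (P i).isMWPure
  exact ⟨rep_exists hR hS hP, fun M hM s g α hα => rep_pure hq hdeg hR hM hS hP g hα⟩
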