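import Pool.Agent.Y129.WM.FMain

/-!
# The weight-monodromy conjecture and the Euler factors at the central point

Let `F` be a finite extension of `ℚ_p` with residue field of `q` elements, `ℓ ≠ p` and `K = ℚ_ℓ`.
We consider the smooth proper `F`-schemes `X` (of pure dimension), with
`H^m(X) = H^m_et(X_F̄, ℚ_ℓ)` and the Weil-Deligne representation `(ρ, N)` of the Weil group
`Γ = W_F` on it; the character `c` is `g ↦ |g|⁻¹`, with the value `q` at a geometric Frobenius `Fr`. A
`Cohomology s` consists of these data with the theorems on them which are used (they are listed in
the structures `Theory` and `Cohomology`):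

* the eigenvalues of Frobenius are Weil numbers of integral weights (weight spectral sequence of
  Rapoport and Zink, alterations), the formula of Künneth, Poincaré duality, correspondences;
* there is a Tate curve `E` over `F`, with `H^0(E) = ⟨1⟩`, `H^1(E) = ⟨e0, e1⟩`, `N(e1) = e0`,
  `H^2(E) = ⟨pt⟩`;
* `good`: for every nonzero Galois stable subspace `S` of weight `a` of `H^m(X)` there are a `Y` with
  potentially good reduction, `n` and `j` with `a + n = 2 j`, and a nonzero element invariant under `ρ`
  in `H^n(Y) ⊗ S(j)`. (Over a finite extension `F'` of `F` the inertia group acts trivially on `S`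
  through `ρ`. The eigenvalues of Frobenius on `S` are Weil numbers and occur in the cohomology of
  smooth projective varieties over the residue field. By the theorem of Honda and Tate, powers of
  them occur up to Tate twists in the cohomology of abelian varieties, which can be lifted to abelian
  varieties with complex multiplication over an extension `F'`. Take for `Y` such an abelian variety
  over `F'`, considered as a scheme over `F`; its cohomology is the induced representation.)

Theorem. The following statements are equivalent (`F` and `ℓ` are fixed).

1. `WeightMonodromy`: the weight-monodromy conjecture for all `X` and `m`, that is,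
   `N ^ k` is an isomorphism from the part of weight `m + k` of `H^m(X)` to the part of weight
   `m - k` for all `k` (equivalently, `gr^N_s H^m(X)` is pure of weight `m + s` for all `s`).
2. `NoInvariants`: `H^m(X)(r)` has no nonzero Galois invariants for all `X` and `m < 2 r`.
3. `NoCentralInvariants`: for all `X` of odd dimension `n = 2 r - 1`, `H^n(X)(r)` has no nonzero
   Galois invariants. In other words, the Euler factor `det(1 - Fr q^{-s} | H^n(X)^I)⁻¹` of the
   cohomology in the middle degree has no pole at the central point `s = (n + 1) / 2`.
4. `OneExponent f`, for one function `f` or for all functions `f` with positive values with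
   `f(n) / n → 0`: for every `X` there is one exponent `e` with `1 ≤ e ≤ f(dim X)` such that `N ^ e` is
   injective on the part of weight `m + e` of `H^m(X)` for all `m`.

So the whole conjecture follows from its case of the eigenvalue `q ^ ((n+1)/2)` of Frobenius on the
inertia invariants killed by `N` in the middle cohomology of the varieties of odd dimension `n`.
(Remark, not part of the formal statement: for `n = dim X = 2 r - 1` the representation
`V = H^n(X)(r)` is isomorphic to `V^*(1)`, hence by the local duality and the Euler characteristic
formula of Tate `dim H^1(G_F, V) = 2 dim V^{G_F}`. So the weight-monodromy conjecture for all `X` over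
`F` is equivalent to `H^1(G_F, H^n(X)((n+1)/2)) = 0` for all `X` of odd dimension `n`.)

Proof. 1 ⟹ 2: an invariant in `H^m(X)(r)` is killed by `N` and of weight `2 r > m`.

3 ⟹ 2: if `v ≠ 0` is an invariant in `H^m(X)(r)`, `m < 2 r`, then its exterior products with `2 r - 1 - m`
copies of the class `e0`, sufficiently many classes `pt` and classes `1` in the cohomology of `E` give
a nonzero invariant in `H^n(X × E^t)(r')` with `n = dim (X × E^t) = 2 r' - 1`.

2 ⟹ 1: let `x ≠ 0` be a vector of weight `m + k` in `H^m(X)` with `N ^ k x = 0`. By an argument of Deligne
(Weil II), with the largest `L` such that `N ^ L x ≠ 0` the vector `∑_i (-1)^i N^i x × N^{L-i} x` in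
`H^{2m}(X × X)` is nonzero, killed by `N`, and of weight `2 (m + k - L) > 2 m`. So let `S ≠ 0` be the part
of a weight `a > m` of the kernel of `N` on some `H^m(X)`. Let `z` be the invariant in `H^n(Y) ⊗ S(j)`
given by `good`. As `N = 0` on `H^n(Y)`, `N z = 0`, and `z` is a nonzero invariant in
`H^{n+m}(Y × X)(j)`, where `n + m < n + a = 2 j`. This contradicts 2. So `N ^ k` is injective on the part of
weight `m + k`, and it is surjective by duality.

4 ⟹ 1: a class `v ≠ 0` of weight `m + δ`, `δ > 0`, in the kernel of `N` gives a class `v × ... × v` of weight
`μ + 2^k δ` in `H^μ(X ^ {2^k})`, and the products with `1` or `e0` in the cohomology of powers of `E` give such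
classes in degree `ν`, of weight `ν + e` for all `e ≤ 2^k δ`, on one variety whose dimension
is linear in `2^k`. In the proof the weights of products of vectors have to be determined:
if `P(Fr) x = 0` and `Q(Fr) y = 0`, one needs a rational polynomial whose roots are products of
roots of `P` and `Q`.
-/

namespace Pool.Agent.Results.MP_cd312e_ag.GaloisInvariants

open Pool.Agent.Y129.WM

/-- The weight-monodromy conjecture for all `X` is equivalent to the vanishing of the Galois
invariants of `H^m(X)(r)` for `m < 2 r`, to the case of this in which `m = dim X = 2 r - 1`, and to the
injectivity of `N ^ e` on the part of weight `m + e` for one exponent `e` for every `X`. -/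
theorem result {K Γ : Type} [Field K] [CharZero K] [Group Γ] {s : WeilGroup K Γ}
    (C : Cohomology s) {f : ℕ → ℕ} (hf : Sublinear f) :
    (C.WeightMonodromy ↔ C.NoInvariants) ∧ (C.WeightMonodromy ↔ C.NoCentralInvariants) ∧
      (C.WeightMonodromy ↔ C.OneExponent f) :=
  C.main hf

end Pool.Agent.Results.MP_cd312e_ag.GaloisInvariants
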